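import Mathlib

/-!
# MP_66d22e_co: a triplet cover of a binary phylogenetic tree which is not shellable

There are a binary phylogenetic tree with twelve leaves and a triplet cover of it, with thirty pairs,
which is not shellable.  No four leaves span exactly five pairs of the cover, so that not even the first
step of a shelling is possible.
-/

set_option autoImplicit false

namespace Pool.Agent.Results.MP_66d22e_co.NonShellableCover

/-- A binary phylogenetic `X`-tree with vertex set `V`: a tree whose vertices of degree one (the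
leaves) are labelled bijectively by `X`, while all other vertices (the interior vertices) have degree
three. -/
structure PhyloTree (X V : Type) where
  /-- the tree -/
  G : SimpleGraph V
  isTree : G.IsTree
  /-- the leaf labelled by an element of `X` -/
  leaf : X → V
  leaf_injective : Function.Injective leaf
  degree_leaf : ∀ v ∈ Set.range leaf, (G.neighborSet v).ncard = 1
  degree_interior : ∀ v ∉ Set.range leaf, (G.neighborSet v).ncard = 3

variable {X V : Type}

/-- The leaves `a` and `b` lie in the same component of the tree without the vertex `v`. -/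
def PhyloTree.SameComponent (T : PhyloTree X V) (v : V) (a b : X) : Prop :=
  ∃ p : T.G.Walk (T.leaf a) (T.leaf b), v ∉ p.support

/-- The triple `abc` supports the interior vertex `v` relative to the set `C` of pairs: `a`, `b`, `c`
lie in three different components of the tree without `v`, and `ab`, `ac`, `bc` belong to `C`. -/
def PhyloTree.Supports (T : PhyloTree X V) (C : Set (Sym2 X)) (a b c : X) (v : V) : Prop :=
  ¬ T.SameComponent v a b ∧ ¬ T.SameComponent v a c ∧ ¬ T.SameComponent v b c ∧
    s(a, b) ∈ C ∧ s(a, c) ∈ C ∧ s(b, c) ∈ C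

/-- A triplet cover: a set of 2-subsets of `X` such that every interior vertex is supported. -/
def PhyloTree.IsTripletCover (T : PhyloTree X V) (C : Set (Sym2 X)) : Prop :=
  (∀ e ∈ C, ¬ e.IsDiag) ∧ ∀ v ∉ Set.range T.leaf, ∃ a b c, T.Supports C a b c v

/-- The restriction of the tree to the distinct leaves `x, a, y, b` is the quartet `xa|yb`: the path
from `x` to `a` and the path from `y` to `b` are vertex-disjoint. -/
def PhyloTree.Quartet (T : PhyloTree X V) (x a y b : X) : Prop :=
  ∃ (p : T.G.Walk (T.leaf x) (T.leaf a)) (q : T.G.Walk (T.leaf y) (T.leaf b)),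
    p.IsPath ∧ q.IsPath ∧ ∀ v, v ∈ p.support → v ∉ q.support

/-- `C` is shellable: the pairs not in `C` can be listed as `a 0 b 0, a 1 b 1, ...` such that for each
`i` there are distinct `x`, `y` different from `a i`, `b i` for which the tree restricts to the
quartet `x (a i) | y (b i)` and the five pairs of elements of `{a i, b i, x, y}` other than
`(a i) (b i)` belong to `C` or are `(a j) (b j)` for some `j < i`. -/
def PhyloTree.Shellable (T : PhyloTree X V) (C : Set (Sym2 X)) : Prop :=
  ∃ (m : ℕ) (a b : Fin m → X),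
    (Function.Injective fun i => s(a i, b i)) ∧
    (∀ e : Sym2 X, (∃ i, s(a i, b i) = e) ↔ (¬ e.IsDiag ∧ e ∉ C)) ∧
    ∀ i, ∃ x y, x ≠ a i ∧ x ≠ b i ∧ y ≠ a i ∧ y ≠ b i ∧ x ≠ y ∧
      T.Quartet x (a i) y (b i) ∧
      ∀ e ∈ ({s(x, a i), s(x, b i), s(y, a i), s(y, b i), s(x, y)} : Set (Sym2 X)),
        e ∈ C ∨ ∃ j < i, s(a j, b j) = e

/-! ### The tree -/

/-- The rows of the adjacency matrix, read as binary numbers. -/
def row : Fin 22 → ℕ := ![2097152, 131072, 4096, 16384, 32768, 524288, 65536, 131072, 262144,
  524288, 1048576, 2097152, 73732, 1069056, 40968, 278544, 2101312, 1048706, 557312, 262688,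
  140288, 67585]

/-- The tree with leaves `0, ..., 11` and interior vertices `12, ..., 21`. -/
def tree : SimpleGraph (Fin 22) where
  Adj u v := (row u).testBit v = true
  symm := ⟨by decide +kernel⟩
  loopless := ⟨by decide +kernel⟩

instance : DecidableRel tree.Adj := fun u v => inferInstanceAs (Decidable ((row u).testBit v = true))

/-- The next vertex on the way to the vertex `13`. -/
def par : Fin 22 → Fin 22 := ![21, 17, 12, 14, 15, 19, 16, 17, 18, 19, 20, 21, 13, 13, 13, 14, 12,
  20, 15, 18, 13, 16]

/-- The distance to the vertex `13`. -/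
def dep : Fin 22 → ℕ := ![4, 3, 2, 2, 3, 5, 3, 3, 4, 5, 2, 4, 1, 0, 1, 2, 2, 2, 3, 4, 1, 3]

theorem par_spec : ∀ v : Fin 22, v = 13 ∨ (tree.Adj v (par v) ∧ dep (par v) < dep v) := by
  decide +kernel

theorem reach (n : ℕ) : ∀ v : Fin 22, dep v ≤ n → tree.Reachable v 13 := by
  induction n with
  | zero =>
    intro v hv
    rcases par_spec v with h | h
    · rw [h]
    · omega
  | succ n ih =>
    intro v hv
    rcases par_spec v with h | ⟨h1, h2⟩
    · rw [h]
    · exact h1.reachable.trans (ih _ (by omega))

theorem connected : tree.Connected :=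
  { preconnected := fun u v => (reach _ u le_rfl).trans (reach _ v le_rfl).symm
    nonempty := ⟨0⟩ }

theorem isTree : tree.IsTree := by
  rw [SimpleGraph.isTree_iff_connected_and_card]
  refine ⟨connected, ?_⟩
  have h : Nat.card tree.edgeSet = 21 := by
    rw [Nat.card_eq_fintype_card, ← SimpleGraph.edgeFinset_card]
    have h2 := SimpleGraph.sum_degrees_eq_twice_card_edges tree
    have h3 : ∑ v, tree.degree v = 42 := by decide +kernel
    omega
  rw [h, Nat.card_eq_fintype_card, Fintype.card_fin]

theorem degree_eq (v : Fin 22) : (tree.neighborSet v).ncard = tree.degree v := by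
  rw [Set.ncard_eq_toFinset_card', SimpleGraph.degree, SimpleGraph.neighborFinset]

/-- The binary phylogenetic tree. -/
def T : PhyloTree (Fin 12) (Fin 22) where
  G := tree
  isTree := isTree
  leaf := Fin.castLE (by omega)
  leaf_injective := Fin.castLE_injective _
  degree_leaf := by
    rintro v ⟨x, rfl⟩
    rw [degree_eq]
    revert x
    decide +kernel
  degree_interior := by
    intro v hv
    rw [degree_eq]
    have h : ∀ v : Fin 22, (∃ x : Fin 12, Fin.castLE (by omega) x = v) ∨ tree.degree v = 3 := by
      decide +kernel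
    rcases h v with ⟨x, hx⟩ | h
    · exact absurd ⟨x, hx⟩ hv
    · exact h

/-- The components of the tree without a vertex are numbered `0, 1, 2`; the binary digits `2 u` and
`2 u + 1` of `comp v` give the number of the component of `u`. -/
def comp : Fin 22 → ℕ := ![0, 0, 0, 0, 0, 0, 0, 0, 0, 0, 0, 0, 10266390914374, 2578325013832,
  6208465033749, 6206585985109, 10257817748822, 11693764274850, 6070220642645, 11178367951530,
  4781729224025, 2932026813096]

/-- the number of the component of `u` in the tree without `v` -/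
def side (v u : Fin 22) : ℕ := comp v / 4 ^ (u : ℕ) % 4

theorem side_adj : ∀ v : Fin 22, 12 ≤ v.val → ∀ u w : Fin 22, tree.Adj u w → u ≠ v → w ≠ v →
    side v u = side v w := by decide +kernel

theorem side_walk {v : Fin 22} (hv : 12 ≤ v.val) {u w : Fin 22} (p : tree.Walk u w)
    (h : v ∉ p.support) : side v u = side v w := by
  induction p with
  | nil => rfl
  | cons hadj q ih =>
    rw [SimpleGraph.Walk.support_cons, List.mem_cons, not_or] at h
    rw [← ih h.2]
    refine side_adj v hv _ _ hadj (Ne.symm h.1) ?_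
    rintro rfl
    exact h.2 q.start_mem_support

theorem not_same {v : Fin 22} (hv : 12 ≤ v.val) {a b : Fin 12}
    (h : side v (T.leaf a) ≠ side v (T.leaf b)) : ¬ T.SameComponent v a b := by
  rintro ⟨p, hp⟩
  exact h (side_walk hv p hp)

/-! ### The cover -/

/-- The rows of the incidence matrix of the cover. -/
def crow : Fin 12 → ℕ := ![3594, 1225, 2392, 1287, 3172, 1936, 2198, 866, 684, 2465, 59, 597]

/-- the pairs of the cover -/
def cov (a b : Fin 12) : Bool := (crow a).testBit b

theorem cov_symm : ∀ a b, cov a b = cov b a := by decide +kernel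

theorem cov_irrefl : ∀ a, cov a a = false := by decide +kernel

/-- The cover. -/
def C : Set (Sym2 (Fin 12)) := {e | ∃ a b, e = s(a, b) ∧ cov a b = true}

theorem mem_C {a b : Fin 12} : s(a, b) ∈ C ↔ cov a b = true := by
  constructor
  · rintro ⟨a', b', h1, h2⟩
    rw [Sym2.eq_iff] at h1
    rcases h1 with ⟨rfl, rfl⟩ | ⟨rfl, rfl⟩
    · exact h2
    · rw [cov_symm]; exact h2
  · intro h
    exact ⟨a, b, rfl, h⟩

/-- the supporting triples of the interior vertices -/
def trip : Fin 22 → Fin 12 × Fin 12 × Fin 12 := ![(0, 0, 0), (0, 0, 0), (0, 0, 0), (0, 0, 0),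
  (0, 0, 0), (0, 0, 0), (0, 0, 0), (0, 0, 0), (0, 0, 0), (0, 0, 0), (0, 0, 0), (0, 0, 0),
  (2, 4, 6), (0, 3, 1), (3, 2, 8), (4, 10, 5), (2, 6, 11), (1, 6, 7), (7, 8, 5), (5, 8, 9),
  (1, 0, 10), (0, 9, 11)]

theorem trip_spec : ∀ v : Fin 22, 12 ≤ v.val →
    side v (Fin.castLE (by omega) (trip v).1) ≠ side v (Fin.castLE (by omega) (trip v).2.1) ∧
    side v (Fin.castLE (by omega) (trip v).1) ≠ side v (Fin.castLE (by omega) (trip v).2.2) ∧
    side v (Fin.castLE (by omega) (trip v).2.1) ≠ side v (Fin.castLE (by omega) (trip v).2.2) ∧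
    cov (trip v).1 (trip v).2.1 = true ∧ cov (trip v).1 (trip v).2.2 = true ∧
    cov (trip v).2.1 (trip v).2.2 = true := by decide +kernel

theorem isTripletCover : T.IsTripletCover C := by
  constructor
  · rintro e ⟨a, b, rfl, h⟩ hd
    rw [Sym2.mk_isDiag_iff] at hd
    subst hd
    rw [cov_irrefl] at h
    exact absurd h (by decide)
  · intro v hv
    have hv' : 12 ≤ v.val := by
      by_contra hlt
      exact hv ⟨⟨v.val, by omega⟩, by ext; rfl⟩
    obtain ⟨h1, h2, h3, h4, h5, h6⟩ := trip_spec v hv'
    exact ⟨(trip v).1, (trip v).2.1, (trip v).2.2, not_same hv' h1, not_same hv' h2,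
      not_same hv' h3, mem_C.2 h4, mem_C.2 h5, mem_C.2 h6⟩

/-- no four leaves span exactly five pairs of the cover -/
theorem no_diamond : ∀ x y a b : Fin 12, cov x a = true → cov x b = true → cov y a = true →
    cov y b = true → cov x y = true → a ≠ b → cov a b = true := by decide +kernel

theorem not_shellable : ¬ T.Shellable C := by
  rintro ⟨m, a, b, -, h1, h2⟩
  have h3 : ∃ i, s(a i, b i) = s((0 : Fin 12), 2) := by
    rw [h1, mem_C, Sym2.mk_isDiag_iff]
    decide
  obtain ⟨i, -⟩ := h3
  have hm : 0 < m := i.pos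
  obtain ⟨x, y, -, -, -, -, -, -, h4⟩ := h2 ⟨0, hm⟩
  have h5 : ∀ e ∈ ({s(x, a ⟨0, hm⟩), s(x, b ⟨0, hm⟩), s(y, a ⟨0, hm⟩), s(y, b ⟨0, hm⟩), s(x, y)} :
      Set (Sym2 (Fin 12))), e ∈ C := by
    intro e he
    rcases h4 e he with h | ⟨j, hj, -⟩
    · exact h
    · exact absurd hj (Nat.not_lt_zero _)
  have h6 := (h1 s(a ⟨0, hm⟩, b ⟨0, hm⟩)).1 ⟨_, rfl⟩
  apply h6.2
  rw [mem_C]
  refine no_diamond x y _ _ ?_ ?_ ?_ ?_ ?_ ?_
  · exact mem_C.1 (h5 _ (by simp))
  · exact mem_C.1 (h5 _ (by simp))
  · exact mem_C.1 (h5 _ (by simp))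
  · exact mem_C.1 (h5 _ (by simp))
  · exact mem_C.1 (h5 _ (by simp))
  · intro h
    exact h6.1 (by rw [Sym2.mk_isDiag_iff]; exact h)

/-- **Q1 of MP_66d22e_co is false.**  There are a binary phylogenetic tree with twelve leaves (and
ten interior vertices) and a triplet cover of this tree which is not shellable. -/
theorem result : ∃ (T : PhyloTree (Fin 12) (Fin 22)) (C : Set (Sym2 (Fin 12))),
    T.IsTripletCover C ∧ ¬ T.Shellable C :=
  ⟨T, C, isTripletCover, not_shellable⟩

end Pool.Agent.Results.MP_66d22e_co.NonShellableCover
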